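import Pool.Agent.Helper139.Pr15
import Pool.Agent.Y852.CS.Hilbert

/-!
# Surjective maps preserving the spectrum of commutators: the set of free signs

The surjective maps `φ : 𝓑(X) → 𝓑(Y)` with `σ([φ(T), φ(S)]) = σ([T, S])` are of the form
`T ↦ ± ε(T) A T A⁻¹ + η(T)` or `T ↦ ± i ε(T) A T* A⁻¹ + η(T)`, where the sign `ε(T)` may be
chosen freely if `T` is commutator symmetric (the spectra of all `[T, S]` are symmetric about the
origin) and is `1` otherwise. Here the commutator symmetric operators are determined: on a Hilbert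
space they are the operators `T` with `(T - a) (T - b) = 0` for some `a ≠ b`, and the operators `T`
such that `(T - a)² = 0` and `T - a` is compact for some `a`. In finite dimension they are the
operators with `(T - a) (T - b) = 0` for some `a`, `b`. This makes the description of the maps
explicit for all Hilbert spaces `X`.
-/

set_option autoImplicit false

namespace Pool.Agent.Results.MP_0bd5b4_an.ExplicitSigns

open Pool.Agent.Helper139

universe u v w

section Defs

variable {X : Type u} [NormedAddCommGroup X] [NormedSpace ℂ X]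
variable {Y : Type v} [NormedAddCommGroup Y] [NormedSpace ℂ Y]

/-- The Banach space adjoint of `T`, acting on the dual space by `f ↦ f ∘ T`. -/
noncomputable def adjoint (T : X →L[ℂ] X) : (X →L[ℂ] ℂ) →L[ℂ] (X →L[ℂ] ℂ) :=
  (ContinuousLinearMap.compL ℂ X X ℂ).flip T

/-- Sanity check: the adjoint acts by composition. -/
lemma adjoint_apply (T : X →L[ℂ] X) (f : X →L[ℂ] ℂ) (x : X) : adjoint T f x = f (T x) := rfl

/-- `T` is commutator symmetric: for every bounded `S` the spectrum of `[T, S]` is symmetric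
about the origin. -/
def CommSymmetric (T : X →L[ℂ] X) : Prop :=
  ∀ S : X →L[ℂ] X, ∀ z ∈ spectrum ℂ (T * S - S * T), -z ∈ spectrum ℂ (T * S - S * T)

/-- `(T - a) (T - b) = 0` for some complex numbers `a`, `b`. -/
def Quadratic (T : X →L[ℂ] X) : Prop :=
  ∃ a b : ℂ, (T - a • (1 : X →L[ℂ] X)) * (T - b • (1 : X →L[ℂ] X)) = 0

/-- `(T - a) (T - b) = 0` for some `a ≠ b`, or `(T - a)² = 0` and `T - a` is a compact operator
for some `a`. -/
def SignFree (T : X →L[ℂ] X) : Prop :=
  (∃ a b : ℂ, a ≠ b ∧ (T - a • (1 : X →L[ℂ] X)) * (T - b • (1 : X →L[ℂ] X)) = 0) ∨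
  ∃ a : ℂ, (T - a • (1 : X →L[ℂ] X)) * (T - a • (1 : X →L[ℂ] X)) = 0 ∧
    IsCompactOperator (T - a • (1 : X →L[ℂ] X))

/-- First standard form: `φ T = c ε(T) A T A⁻¹ + η(T) 1` with `c = 1` or `c = -1`, where `A` is
an isomorphism from `X` onto `Y` and `ε(T)` is a sign, equal to `1` unless `P T`. -/
def FirstForm (P : (X →L[ℂ] X) → Prop) (φ : (X →L[ℂ] X) → (Y →L[ℂ] Y)) : Prop :=
  ∃ (A : X ≃L[ℂ] Y) (c : ℂ) (ε η : (X →L[ℂ] X) → ℂ), (c = 1 ∨ c = -1) ∧
    (∀ T, ε T = 1 ∨ ε T = -1) ∧ (∀ T, ¬ P T → ε T = 1) ∧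
    ∀ T, φ T = (c * ε T) • ((A : X →L[ℂ] Y) ∘L T ∘L (A.symm : Y →L[ℂ] X)) +
      η T • (1 : Y →L[ℂ] Y)

/-- Second standard form: `φ T = c ε(T) A T* A⁻¹ + η(T) 1` with `c = i` or `c = -i`, where `A`
is an isomorphism from the dual of `X` onto `Y` and `ε(T)` is a sign, equal to `1` unless
`P T`. -/
def SecondForm (P : (X →L[ℂ] X) → Prop) (φ : (X →L[ℂ] X) → (Y →L[ℂ] Y)) : Prop :=
  ∃ (A : (X →L[ℂ] ℂ) ≃L[ℂ] Y) (c : ℂ) (ε η : (X →L[ℂ] X) → ℂ), (c = Complex.I ∨ c = -Complex.I) ∧
    (∀ T, ε T = 1 ∨ ε T = -1) ∧ (∀ T, ¬ P T → ε T = 1) ∧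
    ∀ T, φ T = (c * ε T) • ((A : (X →L[ℂ] ℂ) →L[ℂ] Y) ∘L adjoint T ∘L
      (A.symm : Y →L[ℂ] (X →L[ℂ] ℂ))) + η T • (1 : Y →L[ℂ] Y)

/-- `σ([φ(T), φ(S)]) = σ([T, S])` for all `T`, `S`. -/
def Preserves (φ : (X →L[ℂ] X) → (Y →L[ℂ] Y)) : Prop :=
  ∀ T S : X →L[ℂ] X, spectrum ℂ (φ T * φ S - φ S * φ T) = spectrum ℂ (T * S - S * T)

/-- The identity of `Z × Z` factors through `N`, for some Banach space `Z` with bounded operators
`V`, `W` such that `W V = 1` and `V W ≠ 1`. -/
def BigFactor (N : X →L[ℂ] X) : Prop :=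
  ∃ (Z : Type w) (_ : NormedAddCommGroup Z) (_ : NormedSpace ℂ Z) (_ : CompleteSpace Z)
    (V W : Z →L[ℂ] Z) (A : Z × Z →L[ℂ] X) (B : X →L[ℂ] Z × Z),
    W * V = 1 ∧ V * W ≠ 1 ∧ B ∘L N ∘L A = ContinuousLinearMap.id ℂ (Z × Z)

end Defs

/-- Let `X` be a Hilbert space, `Y` a Banach space and `φ : 𝓑(X) → 𝓑(Y)` surjective. Then `φ`
preserves the spectrum of commutators if and only if it is of the first or of the second form,
where the sign `ε(T)` is free exactly for the operators with `SignFree T`. -/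
def HilbertDescription : Prop :=
  ∀ (X : Type u) (Y : Type v) [NormedAddCommGroup X] [InnerProductSpace ℂ X] [CompleteSpace X]
    [NormedAddCommGroup Y] [NormedSpace ℂ Y] [CompleteSpace Y]
    (φ : (X →L[ℂ] X) → (Y →L[ℂ] Y)), Function.Surjective φ →
    (Preserves φ ↔ (FirstForm SignFree φ ∨ SecondForm SignFree φ))

/-- Let `X` be a finite-dimensional space, `Y` a Banach space and `φ : 𝓑(X) → 𝓑(Y)` surjective.
Then `φ` preserves the spectrum of commutators if and only if it is of the first or of the second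
form, where the sign `ε(T)` is free exactly for the operators with `Quadratic T`. -/
def FiniteDescription : Prop :=
  ∀ (X : Type u) (Y : Type v) [NormedAddCommGroup X] [NormedSpace ℂ X] [FiniteDimensional ℂ X]
    [NormedAddCommGroup Y] [NormedSpace ℂ Y] [CompleteSpace Y]
    (φ : (X →L[ℂ] X) → (Y →L[ℂ] Y)), Function.Surjective φ →
    (Preserves φ ↔ (FirstForm Quadratic φ ∨ SecondForm Quadratic φ))

/-- Let `X`, `Y` be Banach spaces and `φ : 𝓑(X) → 𝓑(Y)` surjective. Then `φ` preserves the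
spectrum of commutators if and only if it is of the first or of the second form, where the sign
`ε(T)` is free exactly for the commutator symmetric operators. -/
def BanachDescription : Prop :=
  ∀ (X : Type u) (Y : Type v) [NormedAddCommGroup X] [NormedSpace ℂ X] [CompleteSpace X]
    [NormedAddCommGroup Y] [NormedSpace ℂ Y] [CompleteSpace Y]
    (φ : (X →L[ℂ] X) → (Y →L[ℂ] Y)), Function.Surjective φ →
    (Preserves φ ↔ (FirstForm CommSymmetric φ ∨ SecondForm CommSymmetric φ))

section Banach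
variable {X : Type u} [NormedAddCommGroup X] [NormedSpace ℂ X] [CompleteSpace X]
variable {Y : Type v} [NormedAddCommGroup Y] [NormedSpace ℂ Y] [CompleteSpace Y]

lemma general (φ : (X →L[ℂ] X) → (Y →L[ℂ] Y)) (hφ : Function.Surjective φ) :
    (∀ T S : X →L[ℂ] X, spectrum ℂ (φ T * φ S - φ S * φ T) = spectrum ℂ (T * S - S * T)) ↔
      (FirstForm CommSymmetric φ ∨ SecondForm CommSymmetric φ) := by
  refine ⟨fun h => Pr.std_of_star_all hφ h, ?_⟩
  rintro (h | h)
  · exact Pr.star_of_std1 h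
  · exact Pr.star_of_std2 h

omit [CompleteSpace X] in
lemma quadratic_of_comm {T : X →L[ℂ] X} (h : CommSymmetric T) : Quadratic T := by
  obtain ⟨a, b, hab⟩ := Pr.quad_of_sym h
  obtain ⟨w, hw⟩ := IsAlgClosed.exists_pow_nat_eq (a ^ 2 + 4 * b) (n := 2) (by norm_num)
  refine ⟨(a + w) / 2, (a - w) / 2, ?_⟩
  have e : (T - ((a + w) / 2) • (1 : X →L[ℂ] X)) * (T - ((a - w) / 2) • (1 : X →L[ℂ] X)) =
      T * T - a • T + ((a ^ 2 - w ^ 2) / 4) • (1 : X →L[ℂ] X) := by
    ext x
    simp
    module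
  rw [e, hab, hw]
  ext x
  simp
  module

lemma comm_of_signFree {T : X →L[ℂ] X} (h : SignFree T) : CommSymmetric T := by
  rcases h with ⟨a, b, hab, h⟩ | ⟨a, h, hc⟩
  · exact Pr.sym_of_quad hab h
  · exact (Pool.Agent.Y852.CS.sym_shift T a).1 (Pool.Agent.Y852.CS.sym_of_compact h hc)

lemma not_comm_of_factor {Z : Type w} [NormedAddCommGroup Z] [NormedSpace ℂ Z] [CompleteSpace Z]
    {V W : Z →L[ℂ] Z} (hWV : W * V = 1) (hVW : V * W ≠ 1) {T : X →L[ℂ] X} {a : ℂ}
    (hT : (T - a • (1 : X →L[ℂ] X)) * (T - a • (1 : X →L[ℂ] X)) = 0)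
    (A : Z × Z →L[ℂ] X) (B : X →L[ℂ] Z × Z)
    (hB : B ∘L (T - a • (1 : X →L[ℂ] X)) ∘L A = ContinuousLinearMap.id ℂ (Z × Z)) :
    ¬ CommSymmetric T := by
  intro h
  refine Pool.Agent.Y852.CS.not_sym_of_factor (V := V) (W := W)
    (fun z => congrArg (fun f : Z →L[ℂ] Z => f z) hWV) ?_ hT A B
    (fun z => congrArg (fun f : Z × Z →L[ℂ] Z × Z => f z) hB)
    ((Pool.Agent.Y852.CS.sym_shift T a).2 h)
  by_contra hcon
  push Not at hcon
  exact hVW (by ext z; exact hcon z)

end Banach

lemma hilbert_iff {H : Type u} [NormedAddCommGroup H] [InnerProductSpace ℂ H] [CompleteSpace H]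
    (T : H →L[ℂ] H) : CommSymmetric T ↔ SignFree T := by
  refine ⟨fun h => ?_, comm_of_signFree⟩
  obtain ⟨a, b, hab⟩ := quadratic_of_comm h
  by_cases hne : a = b
  · subst hne
    right
    refine ⟨a, hab, ?_⟩
    by_contra hc
    exact Pool.Agent.Y852.CS.not_sym_of_not_compact hab hc
      ((Pool.Agent.Y852.CS.sym_shift T a).2 h)
  · exact Or.inl ⟨a, b, hne, hab⟩

lemma finite_iff {X : Type u} [NormedAddCommGroup X] [NormedSpace ℂ X] [FiniteDimensional ℂ X]
    (T : X →L[ℂ] X) : CommSymmetric T ↔ Quadratic T := by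
  have : CompleteSpace X := FiniteDimensional.complete ℂ X
  have : ProperSpace X := FiniteDimensional.proper ℂ X
  refine ⟨fun h => quadratic_of_comm h, fun h => ?_⟩
  obtain ⟨a, b, hab⟩ := h
  apply comm_of_signFree
  by_cases hne : a = b
  · subst hne
    exact Or.inr ⟨a, hab, isCompactOperator_of_locallyCompactSpace_dom _⟩
  · exact Or.inl ⟨a, b, hne, hab⟩

/-- **Surjective maps preserving the spectrum of commutators, with the exact set of free signs.**

(1) The complete explicit description of the surjective maps `𝓑(X) → 𝓑(Y)` preserving the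
spectrum of commutators if `X` is a Hilbert space and `Y` a Banach space.

(2) The same if `X` is finite-dimensional.

(3) The description for all Banach spaces, with the commutator symmetric operators.

(4) On a Hilbert space the commutator symmetric operators are the operators with `SignFree T`.

(5) In all Banach spaces `SignFree T` implies that `T` is commutator symmetric, which implies
`Quadratic T`; and `T` is not commutator symmetric if `(T - a)² = 0` and `BigFactor (T - a)`. -/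
theorem result : HilbertDescription.{u, v} ∧ FiniteDescription.{u, v} ∧
    BanachDescription.{u, v} ∧
    (∀ (H : Type u) [NormedAddCommGroup H] [InnerProductSpace ℂ H] [CompleteSpace H]
      (T : H →L[ℂ] H), CommSymmetric T ↔ SignFree T) ∧
    (∀ (X : Type u) [NormedAddCommGroup X] [NormedSpace ℂ X] [CompleteSpace X] (T : X →L[ℂ] X),
      (SignFree T → CommSymmetric T) ∧ (CommSymmetric T → Quadratic T) ∧
      ∀ a : ℂ, (T - a • (1 : X →L[ℂ] X)) * (T - a • (1 : X →L[ℂ] X)) = 0 →
        BigFactor.{u, w} (T - a • (1 : X →L[ℂ] X)) → ¬ CommSymmetric T) := by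
  refine ⟨?_, ?_, ?_, ?_, ?_⟩
  · intro H Y _ _ _ _ _ _ φ hφ
    have h : (CommSymmetric : (H →L[ℂ] H) → Prop) = SignFree := by
      funext T
      exact propext (hilbert_iff T)
    rw [← h]
    exact general φ hφ
  · intro X Y _ _ _ _ _ _ φ hφ
    have : CompleteSpace X := FiniteDimensional.complete ℂ X
    have h : (CommSymmetric : (X →L[ℂ] X) → Prop) = Quadratic := by
      funext T
      exact propext (finite_iff T)
    rw [← h]
    exact general φ hφ
  · intro X Y _ _ _ _ _ _ φ hφ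
    exact general φ hφ
  · intro H _ _ _ T
    exact hilbert_iff T
  · intro X _ _ _ T
    refine ⟨comm_of_signFree, quadratic_of_comm, fun a h3 h => ?_⟩
    obtain ⟨Z, _, _, _, V, W, A, B, h1, h2, h4⟩ := h
    exact not_comm_of_factor h1 h2 h3 A B h4

end Pool.Agent.Results.MP_0bd5b4_an.ExplicitSigns
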